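import Pool.Agent.H765Z.KS.Final

set_option autoImplicit false

open Pool.Agent.H765Z.KS

/-- There is a smooth Riemannian metric `g` on `ℝ^4` (in global coordinates) that satisfies the
linear differential curvature condition of order three with smooth coefficient tensors, has
`∇R ≠ 0` at every point, and satisfies no condition of order one or two at any point. -/
theorem Pool.Agent.Results.MP_9d59e9_gt.AOrderThree.result :
    ∃ g : (Fin 4 → ℝ) → Matrix (Fin 4) (Fin 4) ℝ,
      (∀ i j, ContDiff ℝ (⊤ : ℕ∞) (fun x => g x i j)) ∧ (∀ x, (g x).PosDef) ∧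
      (∃ t : (Fin 4 → ℝ) → List (Fin 4) → ℝ, (∀ l, ContDiff ℝ (⊤ : ℕ∞) (fun x => t x l)) ∧
        ∀ x, KSEq g 3 (t x) x) ∧
      (∀ x, ∃ p a b c d, nablaR g [p] a b c d x ≠ 0) ∧
      (∀ x t, ¬ KSEq g 1 t x ∧ ¬ KSEq g 2 t x) :=
  Pool.Agent.H765Z.KS.main
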